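import Pool.Agent.helper98.RPQ.SpecR
import Pool.Agent.helper62.RS.GLC
import Pool.Agent.helper92.RS.GMG

/-!
# Row rpq:CHN (MP_07c750_an): the chain of blocks
-/

set_option autoImplicit false

open scoped MatrixGroups ContDiff Topology UpperHalfPlane ComplexConjugate
open UpperHalfPlane MeasureTheory Filter Set

namespace Pool.Agent.RPQ

open Pool.Agent.RS
open Pool.Agent.MS (BA BB st pf gk Dk amk)

theorem CHN_mc {m : SL(2, ℝ) → ENNReal} {t : ℝ} (hm : Measurable m)
    (hinv : ∀ (f : SL(2, ℝ) → ENNReal) (k : SL(2, ℝ)), Measurable f → ∫⁻ h, f (k * h) ∂mG = ∫⁻ h, f h ∂mG)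
    (hmc : ∀ n, Measurable (Function.uncurry (mc m t n))) (k : SL(2, ℝ)) (n : ℕ) :
    ∀ g h : SL(2, ℝ), mc m t n (k * g) (k * h) = mc m t n g h := by
  have e : ∀ g h : SL(2, ℝ), ((k * g) * aM t)⁻¹ * (k * h) = (g * aM t)⁻¹ * h := by
    intro g h
    group
  induction n with
  | zero =>
    intro g h
    change m (((k * g) * aM t)⁻¹ * (k * h)) = m ((g * aM t)⁻¹ * h)
    rw [e]
  | succ n ih =>
    intro g h
    change ∫⁻ p, m (((k * g) * aM t)⁻¹ * p) * mc m t n p (k * h) ∂mG = ∫⁻ p, m ((g * aM t)⁻¹ * p) * mc m t n p h ∂mG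
    have hf : Measurable fun p => m (((k * g) * aM t)⁻¹ * p) * mc m t n p (k * h) := by
      refine (hm.comp (continuous_const.mul continuous_id).measurable).mul ?_
      exact (hmc n).comp (measurable_id.prodMk measurable_const)
    rw [← hinv _ k hf]
    refine lintegral_congr fun p => ?_
    rw [e, ih]

theorem CHN_ind {Γ : Subgroup SL(2, ℝ)} {A : Set SL(2, ℝ)}
    (hA : ∀ (γ : Γ) (g : SL(2, ℝ)), (γ : SL(2, ℝ)) * g ∈ A ↔ g ∈ A) (γ : Γ) (g : SL(2, ℝ)) :
    A.indicator (fun _ => (1 : ENNReal)) ((γ : SL(2, ℝ)) * g) = A.indicator (fun _ => (1 : ENNReal)) g := by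
  by_cases h : g ∈ A
  · rw [indicator_of_mem h, indicator_of_mem ((hA γ g).mpr h)]
  · rw [indicator_of_notMem h, indicator_of_notMem (fun h' => h ((hA γ g).mp h'))]

theorem CHN_wd {Γ : Subgroup SL(2, ℝ)} {m : SL(2, ℝ) → ENNReal} {t : ℝ} {A : Set SL(2, ℝ)} (hAm : MeasurableSet A)
    (hinv : ∀ (f : SL(2, ℝ) → ENNReal) (k : SL(2, ℝ)), Measurable f → ∫⁻ h, f (k * h) ∂mG = ∫⁻ h, f h ∂mG)
    (hmc : ∀ n, Measurable (Function.uncurry (mc m t n)))
    (hmi : ∀ (k : SL(2, ℝ)) (n : ℕ) (g h : SL(2, ℝ)), mc m t n (k * g) (k * h) = mc m t n g h)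
    (hwm : ∀ l : List ℕ, l ≠ [] → Measurable (Function.uncurry (wdE m t A l)))
    (hA : ∀ (γ : Γ) (g : SL(2, ℝ)), (γ : SL(2, ℝ)) * g ∈ A ↔ g ∈ A) (γ : Γ) :
    ∀ (l : List ℕ) (g h : SL(2, ℝ)), wdE m t A l ((γ : SL(2, ℝ)) * g) ((γ : SL(2, ℝ)) * h) = wdE m t A l g h
  | [] => fun g h => rfl
  | [n] => by
    intro g h
    change A.indicator (fun _ => 1) ((γ : SL(2, ℝ)) * g) * mc m t n ((γ : SL(2, ℝ)) * g) ((γ : SL(2, ℝ)) * h) *
      A.indicator (fun _ => 1) ((γ : SL(2, ℝ)) * h) = A.indicator (fun _ => 1) g * mc m t n g h * A.indicator (fun _ => 1) h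
    rw [CHN_ind hA, CHN_ind hA, hmi]
  | n :: k :: l => by
    intro g h
    change ∫⁻ p, A.indicator (fun _ => 1) ((γ : SL(2, ℝ)) * g) * mc m t n ((γ : SL(2, ℝ)) * g) p *
        wdE m t A (k :: l) p ((γ : SL(2, ℝ)) * h) ∂mG =
      ∫⁻ p, A.indicator (fun _ => 1) g * mc m t n g p * wdE m t A (k :: l) p h ∂mG
    have hf : Measurable fun p => A.indicator (fun _ => (1 : ENNReal)) ((γ : SL(2, ℝ)) * g) *
        mc m t n ((γ : SL(2, ℝ)) * g) p * wdE m t A (k :: l) p ((γ : SL(2, ℝ)) * h) := by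
      refine (measurable_const.mul ((hmc n).comp (measurable_const.prodMk measurable_id))).mul ?_
      exact (hwm (k :: l) (List.cons_ne_nil _ _)).comp (measurable_id.prodMk measurable_const)
    rw [← hinv _ (γ : SL(2, ℝ)) hf]
    refine lintegral_congr fun p => ?_
    rw [CHN_ind hA, hmi, CHN_wd hAm hinv hmc hmi hwm hA γ (k :: l) p h]

theorem CHN_main {Γ : Subgroup SL(2, ℝ)} {F : Set ℍ} {m : SL(2, ℝ) → ENNReal} {t : ℝ} {A : Set SL(2, ℝ)}
    {Sn : ℕ → ENNReal} (hs : SigmaFinite mG) (hAm : MeasurableSet A)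
    (hinv : ∀ (f : SL(2, ℝ) → ENNReal) (k : SL(2, ℝ)), Measurable f → ∫⁻ h, f (k * h) ∂mG = ∫⁻ h, f h ∂mG)
    (hunf : ∀ f : SL(2, ℝ) → ENNReal, Measurable f → ∫⁻ h in dG F, ∑' γ : Γ, f ((γ : SL(2, ℝ)) * h) ∂mG = ∫⁻ h, f h ∂mG)
    (hmc : ∀ n, Measurable (Function.uncurry (mc m t n)))
    (hwm : ∀ l : List ℕ, l ≠ [] → Measurable (Function.uncurry (wdE m t A l)))
    (hA : ∀ (γ : Γ) (g : SL(2, ℝ)), (γ : SL(2, ℝ)) * g ∈ A ↔ g ∈ A)
    (hwi : ∀ (γ : Γ) (l : List ℕ) (g h : SL(2, ℝ)), wdE m t A l ((γ : SL(2, ℝ)) * g) ((γ : SL(2, ℝ)) * h) = wdE m t A l g h)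
    (hdA : ∫⁻ h in dG F, A.indicator (fun _ => (1 : ENNReal)) h ∂mG = mG (dG F ∩ A)) :
    ∀ l : List ℕ, l ≠ [] → (∀ n ∈ l, ∀ g h : SL(2, ℝ), ∑' γ : Γ, mc m t n g ((γ : SL(2, ℝ)) * h) ≤ Sn n) →
      ∀ g : SL(2, ℝ), ∫⁻ h, wdE m t A l g h ∂mG ≤
        A.indicator (fun _ => 1) g * ((l.map Sn).prod * mG (dG F ∩ A) ^ l.length)
  | [], h, _ => absurd rfl h
  | [n], _, hS => by
    intro g
    have hAi : Measurable (A.indicator (fun _ => (1 : ENNReal))) := measurable_const.indicator hAm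
    have hf : Measurable fun h => wdE m t A [n] g h := (hwm [n] (List.cons_ne_nil _ _)).comp (measurable_const.prodMk measurable_id)
    rw [← hunf _ hf]
    calc ∫⁻ h in dG F, ∑' γ : Γ, wdE m t A [n] g ((γ : SL(2, ℝ)) * h) ∂mG
        ≤ ∫⁻ h in dG F, A.indicator (fun _ => (1 : ENNReal)) g * Sn n * A.indicator (fun _ => (1 : ENNReal)) h ∂mG := by
          refine lintegral_mono fun h => ?_
          have e : ∀ γ : Γ, wdE m t A [n] g ((γ : SL(2, ℝ)) * h) =
              A.indicator (fun _ => (1 : ENNReal)) g * A.indicator (fun _ => (1 : ENNReal)) h * mc m t n g ((γ : SL(2, ℝ)) * h) := by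
            intro γ
            change A.indicator (fun _ => 1) g * mc m t n g ((γ : SL(2, ℝ)) * h) * A.indicator (fun _ => 1) ((γ : SL(2, ℝ)) * h) = _
            rw [CHN_ind hA]
            ring
          simp only [e]
          rw [ENNReal.tsum_mul_left]
          have h1 := hS n (List.mem_singleton.mpr rfl) g h
          calc A.indicator (fun _ => (1 : ENNReal)) g * A.indicator (fun _ => (1 : ENNReal)) h * ∑' γ : Γ, mc m t n g ((γ : SL(2, ℝ)) * h)
              ≤ A.indicator (fun _ => (1 : ENNReal)) g * A.indicator (fun _ => (1 : ENNReal)) h * Sn n := by gcongr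
            _ = _ := by ring
      _ = A.indicator (fun _ => 1) g * (([n].map Sn).prod * mG (dG F ∩ A) ^ [n].length) := by
          rw [lintegral_const_mul _ hAi, hdA]
          simp only [List.map_cons, List.map_nil, List.prod_cons, List.prod_nil, mul_one, List.length_cons, List.length_nil, zero_add, pow_one]
          ring
  | n :: k :: l, _, hS => by
    intro g
    have hAi : Measurable (A.indicator (fun _ => (1 : ENNReal))) := measurable_const.indicator hAm
    have hS' : ∀ n ∈ (k :: l), ∀ g h : SL(2, ℝ), ∑' γ : Γ, mc m t n g ((γ : SL(2, ℝ)) * h) ≤ Sn n :=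
      fun n hn => hS n (List.mem_cons_of_mem _ hn)
    have ih := CHN_main hs hAm hinv hunf hmc hwm hA hwi hdA (k :: l) (List.cons_ne_nil _ _) hS'
    have hw := hwm (k :: l) (List.cons_ne_nil _ _)
    have hΨ : Measurable fun p => ∫⁻ h, wdE m t A (k :: l) p h ∂mG := hw.lintegral_prod_right'
    have hΨi : ∀ (γ : Γ) (p : SL(2, ℝ)), ∫⁻ h, wdE m t A (k :: l) ((γ : SL(2, ℝ)) * p) h ∂mG = ∫⁻ h, wdE m t A (k :: l) p h ∂mG := by
      intro γ p
      have hf : Measurable fun h => wdE m t A (k :: l) ((γ : SL(2, ℝ)) * p) h := hw.comp (measurable_const.prodMk measurable_id)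
      rw [← hinv _ (γ : SL(2, ℝ)) hf]
      exact lintegral_congr fun h => hwi γ (k :: l) p h
    have hsw : ∫⁻ h, wdE m t A (n :: k :: l) g h ∂mG =
        ∫⁻ p, A.indicator (fun _ => (1 : ENNReal)) g * mc m t n g p * ∫⁻ h, wdE m t A (k :: l) p h ∂mG ∂mG := by
      change ∫⁻ h, ∫⁻ p, A.indicator (fun _ => (1 : ENNReal)) g * mc m t n g p * wdE m t A (k :: l) p h ∂mG ∂mG = _
      have hj : Measurable (Function.uncurry fun h p => A.indicator (fun _ => (1 : ENNReal)) g * mc m t n g p * wdE m t A (k :: l) p h) := by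
        refine (measurable_const.mul ((hmc n).comp (measurable_const.prodMk measurable_snd))).mul ?_
        exact hw.comp (measurable_snd.prodMk measurable_fst)
      rw [lintegral_lintegral_swap hj.aemeasurable]
      refine lintegral_congr fun p => ?_
      exact lintegral_const_mul _ (hw.comp (measurable_const.prodMk measurable_id))
    rw [hsw]
    have hf : Measurable fun p => A.indicator (fun _ => (1 : ENNReal)) g * mc m t n g p * ∫⁻ h, wdE m t A (k :: l) p h ∂mG :=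
      (measurable_const.mul ((hmc n).comp (measurable_const.prodMk measurable_id))).mul hΨ
    rw [← hunf _ hf]
    calc ∫⁻ p in dG F, ∑' γ : Γ, A.indicator (fun _ => (1 : ENNReal)) g * mc m t n g ((γ : SL(2, ℝ)) * p) *
            ∫⁻ h, wdE m t A (k :: l) ((γ : SL(2, ℝ)) * p) h ∂mG ∂mG
        ≤ ∫⁻ p in dG F, A.indicator (fun _ => (1 : ENNReal)) g * Sn n * (((k :: l).map Sn).prod * mG (dG F ∩ A) ^ (k :: l).length) *
            A.indicator (fun _ => (1 : ENNReal)) p ∂mG := by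
          refine lintegral_mono fun p => ?_
          have e : ∀ γ : Γ, A.indicator (fun _ => (1 : ENNReal)) g * mc m t n g ((γ : SL(2, ℝ)) * p) *
              ∫⁻ h, wdE m t A (k :: l) ((γ : SL(2, ℝ)) * p) h ∂mG =
              (A.indicator (fun _ => (1 : ENNReal)) g * ∫⁻ h, wdE m t A (k :: l) p h ∂mG) * mc m t n g ((γ : SL(2, ℝ)) * p) := by
            intro γ
            rw [hΨi]
            ring
          simp only [e]
          rw [ENNReal.tsum_mul_left]
          have h1 := hS n (List.mem_cons_self) g p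
          calc (A.indicator (fun _ => (1 : ENNReal)) g * ∫⁻ h, wdE m t A (k :: l) p h ∂mG) * ∑' γ : Γ, mc m t n g ((γ : SL(2, ℝ)) * p)
              ≤ (A.indicator (fun _ => (1 : ENNReal)) g * (A.indicator (fun _ => 1) p * (((k :: l).map Sn).prod * mG (dG F ∩ A) ^ (k :: l).length))) * Sn n := by
                gcongr
                exact ih p
            _ = _ := by ring
      _ = A.indicator (fun _ => 1) g * (((n :: k :: l).map Sn).prod * mG (dG F ∩ A) ^ (n :: k :: l).length) := by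
          rw [lintegral_const_mul _ hAi, hdA]
          simp only [List.map_cons, List.prod_cons, List.length_cons, pow_succ]
          ring

theorem CHN_proof (hUNL : UNL_stmt) (hWDE : WDE_stmt) : CHN_stmt := by
  intro Γ F t m A l Sn hΓ hF hm hAm hA hl hS
  have hGMG := GMG GLC
  have hs : SigmaFinite mG := hGMG.2.2.1
  have hinv : ∀ (f : SL(2, ℝ) → ENNReal) (k : SL(2, ℝ)), Measurable f → ∫⁻ h, f (k * h) ∂mG = ∫⁻ h, f h ∂mG :=
    fun f k hf => ((hUNL Γ F hΓ hF).2 f k hf).1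
  have hunf := (hUNL Γ F hΓ hF).1
  obtain ⟨hW1, hW2⟩ := hWDE m t hm
  have hmc : ∀ n, Measurable (Function.uncurry (mc m t n)) := fun n => (hW1 n).1
  have hwm : ∀ l : List ℕ, l ≠ [] → Measurable (Function.uncurry (wdE m t A l)) := fun l hl => (hW2 A l hAm hl).1
  have hmi : ∀ (k : SL(2, ℝ)) (n : ℕ) (g h : SL(2, ℝ)), mc m t n (k * g) (k * h) = mc m t n g h :=
    fun k n => CHN_mc hm hinv hmc k n
  have hwi : ∀ (γ : Γ) (l : List ℕ) (g h : SL(2, ℝ)), wdE m t A l ((γ : SL(2, ℝ)) * g) ((γ : SL(2, ℝ)) * h) = wdE m t A l g h :=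
    fun γ => CHN_wd hAm hinv hmc hmi hwm hA γ
  have hAi : Measurable (A.indicator (fun _ => (1 : ENNReal))) := measurable_const.indicator hAm
  have hdA : ∫⁻ h in dG F, A.indicator (fun _ => (1 : ENNReal)) h ∂mG = mG (dG F ∩ A) := by
    rw [lintegral_indicator_const hAm, one_mul, Measure.restrict_apply hAm, inter_comm]
  have hM := CHN_main (F := F) (Sn := Sn) hs hAm hinv hunf hmc hwm hA hwi hdA l hl hS
  calc ∫⁻ g in dG F, ∫⁻ h, wdE m t A l g h ∂mG ∂mG
      ≤ ∫⁻ g in dG F, ((l.map Sn).prod * mG (dG F ∩ A) ^ l.length) * A.indicator (fun _ => (1 : ENNReal)) g ∂mG :=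
        lintegral_mono fun g => (hM g).trans (le_of_eq (mul_comm _ _))
    _ = (l.map Sn).prod * mG (dG F ∩ A) ^ (l.length + 1) := by
        rw [lintegral_const_mul _ hAi, hdA, pow_succ]
        ring

end Pool.Agent.RPQ
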