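import Pool.Agent.helper11.RPQ.SpecT

/-!
# Row rpq:QPS (MP_07c750_an): eigenfunctions of the perturbed metric as quasimodes
-/

set_option autoImplicit false

open scoped MatrixGroups ContDiff Topology UpperHalfPlane ComplexConjugate
open UpperHalfPlane MeasureTheory Filter Set

namespace Pool.Agent.RPQ

open Pool.Agent.RS
open Pool.Agent.MS (BA BB st pf gk Dk amk)

theorem QPS_cont {n : WithTop ℕ∞} {φ : ℍ → ℂ} (h : QU.CD n φ) : Continuous φ := by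
  have h1 : ContinuousOn (QU.onC φ) {w : ℂ | 0 < w.im} := h.continuousOn
  have h2 : Continuous fun z : ℍ => QU.onC φ (z : ℂ) := h1.comp_continuous continuous_coe fun z => z.im_pos
  have h3 : (fun z : ℍ => QU.onC φ (z : ℂ)) = φ := by
    funext z
    unfold QU.onC
    rw [ofComplex_apply]
  rwa [h3] at h2

theorem QPS_nn {Γ : Subgroup SL(2, ℝ)} {F : Set ℍ} (hF : QU.NiceDom Γ F) {φ : ℍ → ℂ} (hφ : Continuous φ)
    {m : ℍ → ℝ} {M : ℝ} (hm : ∀ z, |m z| ≤ M) {ψ : ℍ → ℂ} (hψ : ∀ z, ψ z = ((m z : ℝ) : ℂ) * φ z) :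
    nn F ψ ≤ M ^ 2 * nn F φ := by
  obtain ⟨K, hK, hFK⟩ := hF.rel
  have hi : IntegrableOn (fun z => M ^ 2 * ‖φ z‖ ^ 2) F := by
    have h0 : Continuous fun z => M ^ 2 * ‖φ z‖ ^ 2 := continuous_const.mul (hφ.norm.pow 2)
    exact (h0.continuousOn.integrableOn_compact hK).mono_set hFK
  unfold nn
  rw [← integral_const_mul]
  refine integral_mono_of_nonneg (Filter.Eventually.of_forall fun z => by positivity) hi
    (Filter.Eventually.of_forall fun z => ?_)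
  change ‖ψ z‖ ^ 2 ≤ M ^ 2 * ‖φ z‖ ^ 2
  rw [hψ z, norm_mul, Complex.norm_real, Real.norm_eq_abs, mul_pow]
  exact mul_le_mul_of_nonneg_right (pow_le_pow_left₀ (abs_nonneg _) (hm z) 2) (by positivity)

/-- the numerical facts for large `R` -/
theorem QPS_large (C0 a η : ℝ) (hη : 0 < η) :
    ∃ R0 : ℝ, 3 ≤ R0 ∧ ∀ R : ℝ, R0 ≤ R →
      (Real.log R) ^ a ≤ R ^ (η / 8) ∧ C0 * ((Real.log R) ^ a / R) ≤ 1 ∧
      3 * R ^ (99 / 100 : ℝ) + 1 / 4 + 8 * C0 * (Real.log R) ^ a * R ≤ R ^ (1 + η / 8) ∧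
      3 * R ^ (99 / 100 : ℝ) + 1 / 4 + 4 * (C0 * (Real.log R) ^ a) ^ 2 + 3 * (C0 * (Real.log R) ^ a) ≤ R ^ (1 - 1 / 120 : ℝ) := by
  have key : ∀ s : ℝ, 0 < s → Tendsto (fun R : ℝ => (Real.log R) ^ a / R ^ s) atTop (𝓝 0) := fun s hs =>
    (isLittleO_log_rpow_rpow_atTop a hs).tendsto_div_nhds_zero
  have hneg : ∀ s : ℝ, 0 < s → Tendsto (fun R : ℝ => (R ^ s)⁻¹) atTop (𝓝 0) := fun s hs =>
    (tendsto_rpow_atTop hs).inv_tendsto_atTop
  have e1 : ∀ᶠ R : ℝ in atTop, (Real.log R) ^ a / R ^ (η / 8) < 1 :=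
    (key _ (by positivity)).eventually (gt_mem_nhds one_pos)
  have e2 : ∀ᶠ R : ℝ in atTop, C0 * ((Real.log R) ^ a / R ^ (1 : ℝ)) < 1 := by
    have h := (key 1 one_pos).const_mul C0
    rw [mul_zero] at h
    exact h.eventually (gt_mem_nhds one_pos)
  have e3 : ∀ᶠ R : ℝ in atTop, 3 * (R ^ (1 / 100 + η / 8))⁻¹ + 1 / 4 * (R ^ (1 + η / 8))⁻¹ +
      8 * C0 * ((Real.log R) ^ a / R ^ (η / 8)) < 1 := by
    have h := (((hneg (1 / 100 + η / 8) (by positivity)).const_mul 3).add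
      ((hneg (1 + η / 8) (by positivity)).const_mul (1 / 4))).add ((key (η / 8) (by positivity)).const_mul (8 * C0))
    simp only [mul_zero, add_zero] at h
    exact h.eventually (gt_mem_nhds one_pos)
  have e4 : ∀ᶠ R : ℝ in atTop, 3 * (R ^ (1 / 600 : ℝ))⁻¹ + 1 / 4 * (R ^ (119 / 120 : ℝ))⁻¹ +
      4 * (C0 * ((Real.log R) ^ a / R ^ (119 / 240 : ℝ))) ^ 2 + 3 * (C0 * ((Real.log R) ^ a / R ^ (119 / 120 : ℝ))) < 1 := by
    have h := ((((hneg (1 / 600) (by norm_num)).const_mul 3).add ((hneg (119 / 120) (by norm_num)).const_mul (1 / 4))).add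
      ((((key (119 / 240) (by norm_num)).const_mul C0).pow 2).const_mul 4)).add
      (((key (119 / 120) (by norm_num)).const_mul C0).const_mul 3)
    simp only [mul_zero, add_zero, ne_eq, OfNat.ofNat_ne_zero, not_false_eq_true, zero_pow] at h
    exact h.eventually (gt_mem_nhds one_pos)
  obtain ⟨R1, hR1⟩ := (e1.and (e2.and (e3.and e4))).exists_forall_of_atTop
  refine ⟨max 3 R1, le_max_left _ _, fun R hR => ?_⟩
  have hR3 : 3 ≤ R := (le_max_left _ _).trans hR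
  have hRp : 0 < R := by linarith
  obtain ⟨h1, h2, h3, h4⟩ := hR1 R ((le_max_right _ _).trans hR)
  refine ⟨?_, ?_, ?_, ?_⟩
  · rw [div_lt_one (by positivity)] at h1
    exact h1.le
  · rw [Real.rpow_one] at h2
    exact h2.le
  · have hP : 0 < R ^ (1 + η / 8) := by positivity
    have h5 := mul_le_mul_of_nonneg_right h3.le hP.le
    rw [one_mul] at h5
    refine le_trans (le_of_eq ?_) h5
    have i1 : (R ^ (1 / 100 + η / 8))⁻¹ * R ^ (1 + η / 8) = R ^ (99 / 100 : ℝ) := by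
      rw [← Real.rpow_neg hRp.le, ← Real.rpow_add hRp]
      congr 1
      ring
    have i2 : (R ^ (1 + η / 8))⁻¹ * R ^ (1 + η / 8) = 1 := inv_mul_cancel₀ hP.ne'
    have i3 : (Real.log R) ^ a / R ^ (η / 8) * R ^ (1 + η / 8) = (Real.log R) ^ a * R := by
      rw [Real.rpow_add hRp, Real.rpow_one]
      field_simp
    calc 3 * R ^ (99 / 100 : ℝ) + 1 / 4 + 8 * C0 * (Real.log R) ^ a * R
        = 3 * R ^ (99 / 100 : ℝ) + 1 / 4 * 1 + 8 * C0 * ((Real.log R) ^ a * R) := by ring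
      _ = 3 * ((R ^ (1 / 100 + η / 8))⁻¹ * R ^ (1 + η / 8)) + 1 / 4 * ((R ^ (1 + η / 8))⁻¹ * R ^ (1 + η / 8)) +
          8 * C0 * ((Real.log R) ^ a / R ^ (η / 8) * R ^ (1 + η / 8)) := by
        rw [i1, i2, i3]
      _ = _ := by ring
  · have hP : 0 < R ^ (1 - 1 / 120 : ℝ) := by positivity
    have h5 := mul_le_mul_of_nonneg_right h4.le hP.le
    rw [one_mul] at h5
    refine le_trans (le_of_eq ?_) h5
    have i1 : (R ^ (1 / 600 : ℝ))⁻¹ * R ^ (1 - 1 / 120 : ℝ) = R ^ (99 / 100 : ℝ) := by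
      rw [← Real.rpow_neg hRp.le, ← Real.rpow_add hRp]
      congr 1
      norm_num
    have i2 : (R ^ (119 / 120 : ℝ))⁻¹ * R ^ (1 - 1 / 120 : ℝ) = 1 := by
      rw [← Real.rpow_neg hRp.le, ← Real.rpow_add hRp]
      have : (-(119 / 120) + (1 - 1 / 120) : ℝ) = 0 := by norm_num
      rw [this, Real.rpow_zero]
    have i3 : ((Real.log R) ^ a / R ^ (119 / 240 : ℝ)) ^ 2 * R ^ (1 - 1 / 120 : ℝ) = ((Real.log R) ^ a) ^ 2 := by
      have h6 : R ^ (1 - 1 / 120 : ℝ) = (R ^ (119 / 240 : ℝ)) ^ 2 := by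
        rw [← Real.rpow_natCast, ← Real.rpow_mul hRp.le]
        congr 1
        norm_num
      rw [h6, div_pow]
      field_simp
    have i4 : (Real.log R) ^ a / R ^ (119 / 120 : ℝ) * R ^ (1 - 1 / 120 : ℝ) = (Real.log R) ^ a := by
      rw [div_mul_eq_mul_div, mul_div_assoc, div_eq_mul_inv, mul_comm (R ^ (1 - 1 / 120 : ℝ)), i2, mul_one]
    calc 3 * R ^ (99 / 100 : ℝ) + 1 / 4 + 4 * (C0 * (Real.log R) ^ a) ^ 2 + 3 * (C0 * (Real.log R) ^ a)
        = 3 * R ^ (99 / 100 : ℝ) + 1 / 4 * 1 + 4 * C0 ^ 2 * ((Real.log R) ^ a) ^ 2 + 3 * (C0 * (Real.log R) ^ a) := by ring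
      _ = 3 * ((R ^ (1 / 600 : ℝ))⁻¹ * R ^ (1 - 1 / 120 : ℝ)) + 1 / 4 * ((R ^ (119 / 120 : ℝ))⁻¹ * R ^ (1 - 1 / 120 : ℝ)) +
          4 * C0 ^ 2 * (((Real.log R) ^ a / R ^ (119 / 240 : ℝ)) ^ 2 * R ^ (1 - 1 / 120 : ℝ)) +
          3 * (C0 * ((Real.log R) ^ a / R ^ (119 / 120 : ℝ) * R ^ (1 - 1 / 120 : ℝ))) := by
        rw [i1, i2, i3, i4]
      _ = _ := by ring

theorem QPS_proof (hMOM : MOM_stmt) : QPS_stmt := by
  intro Γ F κ C0 a η hΓ hF hκ hC0 ha hη hη1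
  obtain ⟨R0, hR0, hL⟩ := QPS_large C0 a η hη
  refine ⟨R0, by linarith, fun R ρ ϵ μ V φ hR hQ => ?_⟩
  have hR3 : 3 ≤ R := hR0.trans hR
  have hRp : 0 < R := by linarith
  obtain ⟨l1, l2, l3, l4⟩ := hL R hR
  have hlog : 0 < Real.log R := Real.log_pos (by linarith)
  have hLa : 0 < (Real.log R) ^ a := Real.rpow_pos_of_pos hlog a
  have hρ0 : 0 < ρ := lt_of_lt_of_le (Real.rpow_pos_of_pos hlog (-a)) hQ.rho0
  have hV : ∀ z, |V z| ≤ C0 := by
    obtain ⟨V0, hV0, hb, he⟩ := hQ.mol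
    intro z
    rw [he z]
    exact (hMOM.2 κ hκ ρ hρ0).2.2 V0 C0 hV0.1 hb z
  have hφc : Continuous φ := QPS_cont hQ.eig.1
  have hVc : Continuous V := hQ.inv.1
  set x : ℍ → ℝ := fun z => ϵ * V z with hx
  have hxb : ∀ z, |x z| ≤ C0 * ((Real.log R) ^ a / R) := by
    intro z
    rw [hx]
    change |ϵ * V z| ≤ _
    rw [abs_mul, abs_of_nonneg hQ.eps0, mul_comm C0]
    exact mul_le_mul hQ.eps1 (hV z) (abs_nonneg _) (by positivity)
  have hx1 : ∀ z, |x z| ≤ 1 := fun z => (hxb z).trans l2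
  -- bounds for μ
  have hsq : Real.sqrt μ ^ 2 = μ := Real.sq_sqrt hQ.mu0.le
  have hr1 : R ^ (-(1 / 100) : ℝ) ≤ 1 := Real.rpow_le_one_of_one_le_of_nonpos (by linarith) (by norm_num)
  have hrp : 0 < R ^ (-(1 / 100) : ℝ) := by positivity
  have hs0 : 0 ≤ Real.sqrt μ := Real.sqrt_nonneg μ
  have hs1 : Real.sqrt μ ≤ R + 1 := by
    have := (abs_le.mp hQ.mu1).2
    linarith
  have hμR : |μ - R ^ 2| ≤ 3 * R ^ (99 / 100 : ℝ) := by
    have h1 : μ - R ^ 2 = (Real.sqrt μ - R) * (Real.sqrt μ + R) := by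
      nth_rewrite 1 [← hsq]
      ring
    rw [h1, abs_mul, abs_of_nonneg (by linarith : 0 ≤ Real.sqrt μ + R)]
    have h2 : Real.sqrt μ + R ≤ 3 * R := by linarith
    calc |Real.sqrt μ - R| * (Real.sqrt μ + R) ≤ R ^ (-(1 / 100) : ℝ) * (3 * R) :=
          mul_le_mul hQ.mu1 h2 (by linarith) hrp.le
      _ = 3 * R ^ (99 / 100 : ℝ) := by
          have h3 : R ^ (99 / 100 : ℝ) = R ^ (-(1 / 100) : ℝ) * R := by
            nth_rewrite 3 [← Real.rpow_one R]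
            rw [← Real.rpow_add hRp]
            congr 1
            norm_num
          rw [h3]
          ring
  have hμ4 : μ ≤ 4 * R ^ 2 := by
    rw [← hsq]
    nlinarith
  have hμ0 : 0 ≤ μ := hQ.mu0.le
  have hRa : R * ((Real.log R) ^ a / R) = (Real.log R) ^ a := by field_simp
  -- the multipliers
  set m1 : ℍ → ℝ := fun z => μ * Real.exp (x z) - 1 / 4 - R ^ 2 with hm1
  set m2 : ℍ → ℝ := fun z => m1 z - R ^ 2 * x z with hm2
  have hm1c : Continuous m1 := by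
    rw [hm1, hx]
    fun_prop
  have hm2c : Continuous m2 := by
    rw [hm2, hx]
    fun_prop
  have hVi : ∀ (γ : Γ) (z : ℍ), V (γ • z) = V z := hQ.inv.2
  have hxi : ∀ (γ : Γ) (z : ℍ), x (γ • z) = x z := by
    intro γ z
    rw [hx]
    change ϵ * V (γ • z) = ϵ * V z
    rw [hVi]
  have hm1i : ∀ (γ : Γ) (z : ℍ), m1 (γ • z) = m1 z := by
    intro γ z
    rw [hm1]
    change μ * Real.exp (x (γ • z)) - 1 / 4 - R ^ 2 = μ * Real.exp (x z) - 1 / 4 - R ^ 2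
    rw [hxi]
  have hm2i : ∀ (γ : Γ) (z : ℍ), m2 (γ • z) = m2 z := by
    intro γ z
    rw [hm2]
    change m1 (γ • z) - R ^ 2 * x (γ • z) = m1 z - R ^ 2 * x z
    rw [hm1i, hxi]
  have hφi : ∀ (γ : Γ) (z : ℍ), φ (γ • z) = φ z := hQ.eig.2.1
  have hm1b : ∀ z, |m1 z| ≤ R ^ (1 + η / 8) := by
    intro z
    have h1 : |Real.exp (x z) - 1| ≤ 2 * |x z| := Real.abs_exp_sub_one_le (hx1 z)
    have h2 : m1 z = (μ - R ^ 2) + (-(1 / 4)) + μ * (Real.exp (x z) - 1) := by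
      rw [hm1]
      ring
    rw [h2]
    refine (abs_add_three _ _ _).trans ?_
    rw [abs_mul, abs_of_nonneg hμ0]
    have h3 : |(-(1 / 4) : ℝ)| = 1 / 4 := by
      rw [abs_neg, abs_of_nonneg (by norm_num)]
    rw [h3]
    have h4 : μ * |Real.exp (x z) - 1| ≤ 8 * C0 * (Real.log R) ^ a * R := by
      calc μ * |Real.exp (x z) - 1| ≤ 4 * R ^ 2 * (2 * (C0 * ((Real.log R) ^ a / R))) :=
            mul_le_mul hμ4 (h1.trans (by linarith [hxb z])) (abs_nonneg _) (by positivity)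
        _ = 8 * C0 * (R * ((Real.log R) ^ a / R)) * R := by ring
        _ = _ := by rw [hRa]
    linarith
  have hm2b : ∀ z, |m2 z| ≤ R ^ (1 - 1 / 120 : ℝ) := by
    intro z
    have h1 : |Real.exp (x z) - 1 - x z| ≤ x z ^ 2 := Real.abs_exp_sub_one_sub_id_le (hx1 z)
    have h2 : m2 z = (μ - R ^ 2) + (-(1 / 4)) + (μ * (Real.exp (x z) - 1 - x z) + (μ - R ^ 2) * x z) := by
      rw [hm2, hm1]
      ring
    rw [h2]
    refine (abs_add_three _ _ _).trans ?_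
    have h3 : |(-(1 / 4) : ℝ)| = 1 / 4 := by
      rw [abs_neg, abs_of_nonneg (by norm_num)]
    rw [h3]
    have h4 : |μ * (Real.exp (x z) - 1 - x z)| ≤ 4 * (C0 * (Real.log R) ^ a) ^ 2 := by
      rw [abs_mul, abs_of_nonneg hμ0]
      have h5 : x z ^ 2 ≤ (C0 * ((Real.log R) ^ a / R)) ^ 2 := by
        rw [← sq_abs (x z)]
        exact pow_le_pow_left₀ (abs_nonneg _) (hxb z) 2
      calc μ * |Real.exp (x z) - 1 - x z| ≤ 4 * R ^ 2 * (C0 * ((Real.log R) ^ a / R)) ^ 2 :=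
            mul_le_mul hμ4 (h1.trans h5) (abs_nonneg _) (by positivity)
        _ = 4 * (C0 * (R * ((Real.log R) ^ a / R))) ^ 2 := by ring
        _ = _ := by rw [hRa]
    have h6 : |(μ - R ^ 2) * x z| ≤ 3 * (C0 * (Real.log R) ^ a) := by
      rw [abs_mul]
      have h7 : R ^ (99 / 100 : ℝ) ≤ R := by
        nth_rewrite 2 [← Real.rpow_one R]
        exact Real.rpow_le_rpow_of_exponent_le (by linarith) (by norm_num)
      calc |μ - R ^ 2| * |x z| ≤ (3 * R) * (C0 * ((Real.log R) ^ a / R)) :=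
            mul_le_mul (hμR.trans (by linarith)) (hxb z) (abs_nonneg _) (by positivity)
        _ = 3 * (C0 * (R * ((Real.log R) ^ a / R))) := by ring
        _ = _ := by rw [hRa]
    have h8 := abs_add_le (μ * (Real.exp (x z) - 1 - x z)) ((μ - R ^ 2) * x z)
    linarith
  have hQ1 : R ^ (-(η / 8)) ≤ ρ := by
    refine le_trans ?_ hQ.rho0
    rw [Real.rpow_neg hRp.le, Real.rpow_neg hlog.le]
    exact inv_anti₀ hLa l1
  refine ⟨hV, hQ1, ⟨hφc, hφi⟩, fun z => ((m1 z : ℝ) : ℂ) * φ z, ⟨?_, ?_⟩, ?_, ?_, fun z => ((m2 z : ℝ) : ℂ) * φ z, ⟨?_, ?_⟩, ?_, ?_⟩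
  · exact (Complex.continuous_ofReal.comp hm1c).mul hφc
  · intro γ z
    change ((m1 (γ • z) : ℝ) : ℂ) * φ (γ • z) = ((m1 z : ℝ) : ℂ) * φ z
    rw [hm1i, hφi]
  · intro z
    rw [hQ.eig.2.2 z, ← add_mul, ← Complex.ofReal_add]
    congr 2
    rw [hm1]
    ring
  · refine (QPS_nn hF hφc hm1b (fun z => rfl)).trans (le_of_eq ?_)
    congr 1
    rw [← Real.rpow_natCast, ← Real.rpow_mul hRp.le]
    congr 1
    push_cast
    ring
  · exact (Complex.continuous_ofReal.comp hm2c).mul hφc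
  · intro γ z
    change ((m2 (γ • z) : ℝ) : ℂ) * φ (γ • z) = ((m2 z : ℝ) : ℂ) * φ z
    rw [hm2i, hφi]
  · refine (QPS_nn hF hφc hm2b (fun z => rfl)).trans (le_of_eq ?_)
    congr 1
    rw [← Real.rpow_natCast, ← Real.rpow_mul hRp.le]
    congr 1
    push_cast
    ring
  · intro z
    rw [hm2, hx]
    push_cast
    ring

end Pool.Agent.RPQ
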